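import Pool.Agent.Helper12.XG.St2

/-!
# Project XG: module SIM
-/

set_option autoImplicit false

namespace Pool.Agent.Helper63.XG

open Finset Polynomial Pool.Agent.Helper12.XG Pool.Agent.Helper14.GS

private lemma sim_mono {κ κ' : ℝ} {y : ℕ} (h : κ ≤ κ') (hs : Sim κ y) : Sim κ' y := by
  obtain ⟨θ₀, h1, h2⟩ := hs
  refine ⟨θ₀, h1, fun θ hθ N => ?_⟩
  obtain ⟨q, hq, hqy, hb⟩ := h2 θ hθ N
  exact ⟨q, hq, hqy, (Real.rpow_le_rpow_of_exponent_le (h1.trans hθ) (by linarith)).trans hb⟩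

theorem hSIM (h : StSIL) : StSIM := by
  intro r
  obtain ⟨y₀, h1⟩ := h (r + 1)
  refine ⟨max y₀ ⌈Real.exp (2 ^ r + 1)⌉₊, fun y hy => ?_⟩
  obtain ⟨Λ, hΛ, hlog, hs⟩ := h1 y ((le_max_left _ _).trans hy)
  have hy1 : Real.exp (2 ^ r + 1) ≤ y := by
    have h2 : ⌈Real.exp (2 ^ r + 1)⌉₊ ≤ y := (le_max_right _ _).trans hy
    exact (Nat.le_ceil _).trans (by exact_mod_cast h2)
  have hy0 : (0 : ℝ) < y := (Real.exp_pos _).trans_le hy1
  have hl : (2 : ℝ) ^ r + 1 ≤ Real.log y := by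
    rw [Real.le_log_iff_exp_le hy0]; exact hy1
  have h2r : (1 : ℝ) ≤ 2 ^ r := one_le_pow₀ (by norm_num)
  have hlpos : 0 < Real.log y := by linarith
  have hΛr : (2 : ℝ) ^ r ≤ Λ := by linarith
  have hΛ1 : (1 : ℝ) ≤ Λ := h2r.trans hΛr
  refine sim_mono ?_ hs
  refine one_div_le_one_div_of_le (pow_pos hlpos r) ?_
  calc Real.log y ^ r ≤ (2 * (Λ : ℝ)) ^ r := pow_le_pow_left₀ hlpos.le (by linarith) r
    _ = 2 ^ r * (Λ : ℝ) ^ r := mul_pow _ _ _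
    _ ≤ Λ * (Λ : ℝ) ^ r := mul_le_mul_of_nonneg_right hΛr (by positivity)
    _ = (Λ : ℝ) ^ (r + 1) := by rw [pow_succ]; ring

end Pool.Agent.Helper63.XG
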